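import Pool.Agent.Helper31.BC.Stmts
import Pool.Agent.Helper99.Grid.Choice
import Pool.Agent.Helper68.LP.CnfGadget

/-! # Module SPL: the split for the interpolation -/

set_option autoImplicit false

namespace Pool.Agent.Helper31.BC

open Pool.Agent.Helper38.MR (Edge Graph clq mpt Gate Simple out trv)
open Pool.Agent.Helper52.Grid
open Pool.Agent.Helper68.LP (pert dbl ucost scale Costs)

theorem spl_rows {φ : CNF} {B : ℕ} (h : ∀ c ∈ φ, ∀ y ∈ c, y.1 < B) (j i : ℕ) (d : Bool)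
    (hs : sg (subs φ) j = some (i, d)) : i < B := by
  have h1 := Pool.Agent.Helper99.Grid.sg_mem (Pool.Agent.Helper99.Grid.lt_length_of_sg hs)
  rw [hs] at h1
  rw [subs, List.mem_flatMap] at h1
  obtain ⟨c, hc, h2⟩ := h1
  rw [Pool.Agent.Helper99.Grid.clSubs_eq, List.mem_cons] at h2
  rcases h2 with h2 | h2
  · cases h2
  · obtain ⟨y, hy, b, hb⟩ := Pool.Agent.Helper99.Grid.mem_flatMap_litSubs h2
    have h3 : (i, d) = (y.1, b) := Option.some.inj hb
    have h4 : i = y.1 := congrArg Prod.fst h3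
    rw [h4]
    exact h c hc y hy

theorem spl_zero (φ : CNF) (h : 0 < (subs φ).length) : sg (subs φ) 0 = none := by
  rcases φ with _ | ⟨c, φ⟩
  · simp [subs] at h
  · rw [Pool.Agent.Helper99.Grid.subs_cons, Pool.Agent.Helper99.Grid.clSubs_eq, List.cons_append]
    exact Pool.Agent.Helper99.Grid.sg_cons_zero _ _

theorem spl_vb {m l : ℕ} {u v u' v' : Fin m} (h : vb m l u v = vb m l u' v') :
    u = u' ∧ v = v' := by
  unfold vb at h
  have h1 : (u : ℕ) * m + v = (u' : ℕ) * m + v' := by omega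
  have hm : 0 < m := lt_of_le_of_lt (Nat.zero_le _) u.2
  have h2 : ((u : ℕ) * m + v) / m = u := by
    rw [mul_comm, Nat.mul_add_div hm, Nat.div_eq_of_lt v.2, add_zero]
  have h3 : ((u' : ℕ) * m + v') / m = u' := by
    rw [mul_comm, Nat.mul_add_div hm, Nat.div_eq_of_lt v'.2, add_zero]
  have h4 : (u : ℕ) = u' := by rw [← h2, ← h3, h1]
  have h5 : (v : ℕ) = v' := by
    rw [h4] at h1
    omega
  exact ⟨Fin.ext h4, Fin.ext h5⟩

/-- a negative value of the vector comes from a bad position -/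
theorem spl_neg {s : List Sub} {M : ℕ} {a ch : ℕ → Bool} {P Q : Pt}
    (h : ucost (XH s M a ch) (XV s M a ch) 0 P Q < 0) :
    ∃ x, isBad s a ch x P.2 = true := by
  have hX : ∀ x y, XH s M a ch x y < 0 → isBad s a ch x y = true := by
    intro x y hxy
    unfold XH at hxy
    by_contra hb
    rw [Bool.not_eq_true] at hb
    rw [hb] at hxy
    simp only [Bool.toNat_false, Nat.cast_zero, sub_zero] at hxy
    omega
  have hY : ∀ x y, ¬ XV s M a ch x y < 0 := by
    intro x y hxy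
    unfold XV at hxy
    omega
  unfold ucost at h
  split_ifs at h with h1 h2 h3 h4
  · exact ⟨_, hX _ _ h⟩
  · refine ⟨Q.1, ?_⟩
    rw [← h2.2]
    exact hX _ _ h
  · exact absurd h (hY _ _)
  · exact absurd h (hY _ _)
  · exact absurd h (lt_irrefl _)

theorem spl_sep {T U : Type} {F : T → U → Bool} {σ σ' : T} {χ χ' : U}
    (h : (F σ χ = F σ' χ ∧ F σ χ' = F σ' χ') ∨ (F σ χ = F σ χ' ∧ F σ' χ = F σ' χ'))
    (u : Bool → ℤ) : u (F σ χ) + u (F σ' χ') = u (F σ χ') + u (F σ' χ) := by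
  rcases h with ⟨h1, h2⟩ | ⟨h1, h2⟩
  · rw [h1, h2]; ring
  · rw [h1, h2]

theorem st_SPL (hADD : ST_ADD) (hCUT : ST_CUT) (hREL : ST_REL) (hCHS : ST_CHS) (hFRM : ST_FRM)
    (hLIT : ST_LIT) : ST_SPL := by
  intro k q l N W n p hq hl hk hn hB hp hV hW
  set s : List Sub := subs (ccF k q l) with hs
  set M : ℕ := ccM k q l with hM
  have hkq : 0 < k * q := Nat.mul_pos (by omega) hq
  let σ0 : Fin k → Fin q := fun _ => ⟨0, hq⟩
  let χ0 : Fin (k * q) → Fin l := fun _ => ⟨0, hl⟩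
  -- the rows
  have hrows : ∀ j i d, sg s j = some (i, d) → i < 2 * M + 1 := by
    intro j i d h
    exact spl_rows (hFRM k q l σ0 χ0).2.2.1 j i d h
  have hzero : 0 < s.length → sg s 0 = none := spl_zero _
  -- choices
  have hmap : ∀ (σ : Fin k → Fin q) (χ : Fin (k * q) → Fin l),
      subs ((pcc σ χ).map Prod.fst) = s := fun σ χ => by rw [(hFRM k q l σ χ).1]
  have hpc : ∀ (σ : Fin k → Fin q) (χ : Fin (k * q) → Fin l), PChoice s (chf (pcc σ χ)) := by
    intro σ χ
    have := (hCHS (pcc σ χ) (hFRM k q l σ χ).2.1).1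
    rwa [hmap] at this
  let X : (Fin k → Fin q) → (Fin (k * q) → Fin l) → Pair n → ℤ := fun σ χ =>
    xv (XH s M (asg σ χ) (chf (pcc σ χ))) (XV s M (asg σ χ) (chf (pcc σ χ))) p
  have hrel : ∀ (σ : Fin k → Fin q) (χ : Fin (k * q) → Fin l),
      Relax (fun i => pert (dbl (hC s M)) (dbl (vC s M)) (scale n (2 * N) 4 W : ℕ) (p i))
        ((n * scale n (2 * N) 4 W + (2 * W + 1) : ℕ) : ℝ) (X σ χ) := by
    intro σ χ
    exact hREL n N W (hC s M) (vC s M) _ _ p hB (Pool.Agent.Helper68.LP.costs_hv s M)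
      (hCUT s M (asg σ χ) (chf (pcc σ χ)) hrows hzero (hpc σ χ)) hn hp hV hW
  -- additivity
  have hadd : ∀ (σ σ' : Fin k → Fin q) (χ χ' : Fin (k * q) → Fin l) (e : Pair n),
      X σ χ e + X σ' χ' e = X σ χ' e + X σ' χ e := by
    intro σ σ' χ χ' e
    have hsA : ∀ (i : ℕ) (u : Bool → ℤ),
        u (asg σ χ i) + u (asg σ' χ' i) = u (asg σ χ' i) + u (asg σ' χ i) := by
      intro i u
      have h := (hFRM k q l σ χ).2.2.2.1 i
      refine spl_sep (F := fun (σ : Fin k → Fin q) (χ : Fin (k * q) → Fin l) => asg σ χ i) ?_ u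
      rcases h with h | h
      · exact Or.inl (h σ' χ')
      · exact Or.inr (h σ' χ')
    have hsC : ∀ (i : ℕ) (u : Bool → ℤ),
        u (chf (pcc σ χ) i) + u (chf (pcc σ' χ') i)
          = u (chf (pcc σ χ') i) + u (chf (pcc σ' χ) i) := by
      intro i u
      have h := (hFRM k q l σ χ).2.2.2.2 i
      refine spl_sep (F := fun (σ : Fin k → Fin q) (χ : Fin (k * q) → Fin l) =>
        chf (pcc σ χ) i) ?_ u
      rcases h with h | h
      · exact Or.inl (h σ' χ')
      · exact Or.inr (h σ' χ')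
    have hX : ∀ x y, XH s M (asg σ χ) (chf (pcc σ χ)) x y + XH s M (asg σ' χ') (chf (pcc σ' χ')) x y
        = XH s M (asg σ χ') (chf (pcc σ χ')) x y + XH s M (asg σ' χ) (chf (pcc σ' χ)) x y := by
      intro x y
      obtain ⟨u, w, huw⟩ := (hADD s M hrows x y).1
      rw [huw, huw, huw, huw]
      have h1 := hsA ((y - 4) / 6) u
      have h2 := hsC ((x - 5) / 4) w
      linarith
    have hY : ∀ x y, XV s M (asg σ χ) (chf (pcc σ χ)) x y + XV s M (asg σ' χ') (chf (pcc σ' χ')) x y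
        = XV s M (asg σ χ') (chf (pcc σ χ')) x y + XV s M (asg σ' χ) (chf (pcc σ' χ)) x y := by
      intro x y
      obtain ⟨u, w, huw⟩ := (hADD s M hrows x y).2
      rw [huw, huw, huw, huw]
      have h1 := hsA ((y - 4) / 6) u
      have h2 := hsC ((x - 5) / 4) w
      linarith
    simp only [X, xv, ucost]
    split_ifs
    · exact hX _ _
    · exact hX _ _
    · exact hY _ _
    · exact hY _ _
    · rfl
  refine ⟨fun σ => X σ χ0, fun χ e => X σ0 χ e - X σ0 χ0 e, ?_, ?_⟩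
  · intro σ χ
    have h1 : (fun e => X σ χ0 e + (X σ0 χ e - X σ0 χ0 e)) = X σ χ := by
      funext e
      have := hadd σ σ0 χ χ0 e
      linarith
    rw [h1]
    exact hrel σ χ
  · intro e
    have key : ∀ (σ : Fin k → Fin q) (χ : Fin (k * q) → Fin l),
        X σ χ0 e + (X σ0 χ e - X σ0 χ0 e) < 0 →
        ∃ u v : Fin (k * q), u < v ∧ ((p e.1.1).2 - 4) / 6 = vb (k * q) l u v ∧ u ∈ trv σ ∧
          v ∈ trv σ ∧ χ u = χ v := by
      intro σ χ hlt
      have h1 : X σ χ e < 0 := by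
        have := hadd σ σ0 χ χ0 e
        linarith
      obtain ⟨x, hx⟩ := spl_neg h1
      unfold isBad at hx
      rw [Bool.and_eq_true, Bool.and_eq_true, decide_eq_true_iff, Bool.not_eq_true'] at hx
      obtain ⟨⟨⟨_, _, _, _, hsg⟩, hch⟩, hbst⟩ := hx
      obtain ⟨x', hx', y, hy, hy1, hy2⟩ :=
        (hCHS (pcc σ χ) (hFRM k q l σ χ).2.1).2.2 _ hch
      rw [hmap] at hy1 hy2
      have h3 : y.1 = ((p e.1.1).2 - 4) / 6 := by
        have h4 := Option.some.inj (hy1.symm.trans hsg)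
        exact congrArg Prod.fst h4
      have h5 := hy2 (asg σ χ)
      rw [h3, hbst] at h5
      have h6 : asg σ χ y.1 ≠ y.2 := by
        intro h7
        rw [h3] at h7
        rw [h7] at h5
        simp at h5
      obtain ⟨u, v, huv, h8, h9, h10, h11⟩ := hLIT k q l σ χ x' hx' y hy h6
      exact ⟨u, v, huv, by rw [← h3, h8], h9, h10, h11⟩
    by_cases hex : ∃ ε : Edge (k * q), ((p e.1.1).2 - 4) / 6 = vb (k * q) l ε.1.1 ε.1.2
    · obtain ⟨ε, hε⟩ := hex
      refine ⟨ε, fun σ χ hlt => ?_⟩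
      obtain ⟨u, v, huv, h8, h9, h10, h11⟩ := key σ χ hlt
      obtain ⟨h12, h13⟩ := spl_vb (hε.symm.trans h8)
      constructor
      · simp only [clq, decide_eq_true_iff]
        rw [h12, h13]
        exact ⟨h9, h10⟩
      · simp only [mpt, decide_eq_false_iff_not, not_not]
        rw [h12, h13]
        exact h11
    · have h2 : 2 ≤ k * q := by nlinarith
      refine ⟨⟨(⟨0, by omega⟩, ⟨1, by omega⟩), by simp [Fin.lt_def]⟩, fun σ χ hlt => ?_⟩
      obtain ⟨u, v, huv, h8, h9, h10, h11⟩ := key σ χ hlt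
      exact absurd ⟨⟨(u, v), huv⟩, h8⟩ hex

end Pool.Agent.Helper31.BC
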